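import Mathlib

set_option autoImplicit false

open Set

universe u

namespace Pool.Agent.Results.MP_65fb70_co.OverlappingSums

/-- `(X, C)` is an aligned space. -/
structure Aligned {α : Type u} (X : Set α) (C : Set (Set α)) : Prop where
  sub : ∀ A ∈ C, A ⊆ X
  empty : ∅ ∈ C
  whole : X ∈ C
  inter : ∀ F ⊆ C, F.Nonempty → ⋂₀ F ∈ C
  chain : ∀ F ⊆ C, F.Nonempty → IsChain (· ⊆ ·) F → ⋃₀ F ∈ C

/-- The hull of `S`: the intersection of the members of `C` which contain `S`. -/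
def hull {α : Type u} (C : Set (Set α)) (S : Set α) : Set α := ⋂₀ {A | A ∈ C ∧ S ⊆ A}

/-- The `σ`-core of `S`: the intersection of the hulls of `S \ M`, `M ⊆ S`, `|M| ≤ σ`. -/
def core {α : Type u} (C : Set (Set α)) (σ : ℕ) (S : Set α) : Set α :=
  ⋂₀ {H | ∃ M ⊆ S, M.encard ≤ σ ∧ H = hull C (S \ M)}

/-- The `σ`-Helly number: the infimum (`⊤` if there are none) of the natural numbers `n` such that
every `S ⊆ X` with at least `n + 1` elements has a nonempty `σ`-core. -/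
noncomputable def helly {α : Type u} (X : Set α) (C : Set (Set α)) (σ : ℕ) : ℕ∞ :=
  sInf {k | ∃ n : ℕ, k = n ∧ ∀ S ⊆ X, (n : ℕ∞) + 1 ≤ S.encard → (core C σ S).Nonempty}

/-- The convex sets of the aligned sum, a family of subsets of `X₁ ∪ X₂`. -/
def alignedSum {α : Type u} (X₁ : Set α) (C₁ : Set (Set α)) (X₂ : Set α) (C₂ : Set (Set α)) :
    Set (Set α) :=
  {D | ∃ A ∈ C₁, ∃ B ∈ C₂, D = (A \ X₂) ∪ (B \ X₁) ∪ (A ∩ B)}

variable {α : Type u}

theorem mem_hull {C : Set (Set α)} {S : Set α} {x : α} :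
    x ∈ hull C S ↔ ∀ A ∈ C, S ⊆ A → x ∈ A := by
  simp only [hull, mem_sInter, mem_ofPred_eq, and_imp]

theorem mem_core {C : Set (Set α)} {σ : ℕ} {S : Set α} {x : α} :
    x ∈ core C σ S ↔ ∀ M ⊆ S, M.encard ≤ σ → x ∈ hull C (S \ M) := by
  simp only [core, mem_sInter, mem_ofPred_eq]
  constructor
  · intro h M hM hc
    exact h _ ⟨M, hM, hc, rfl⟩
  · rintro h _ ⟨M, hM, hc, rfl⟩
    exact h M hM hc

theorem hull_mono {C : Set (Set α)} {S T : Set α} (h : S ⊆ T) : hull C S ⊆ hull C T := by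
  intro x hx
  rw [mem_hull] at hx ⊢
  exact fun A hA hT => hx A hA (h.trans hT)

theorem subset_hull {C : Set (Set α)} {S : Set α} : S ⊆ hull C S := by
  intro x hx
  rw [mem_hull]
  exact fun A _ h => h hx

theorem hull_le_of_mem {C : Set (Set α)} {S : Set α} {c : α} (h : c ∈ hull C S) :
    hull C {c} ⊆ hull C S := by
  intro x hx
  rw [mem_hull] at hx h ⊢
  exact fun A hA hS => hx A hA (by simpa using h A hA hS)

theorem hull_empty {X : Set α} {C : Set (Set α)} (h : Aligned X C) : hull C ∅ = ∅ := by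
  ext x
  simp only [mem_empty_iff_false, iff_false]
  intro hx
  exact mem_hull.1 hx ∅ h.empty (empty_subset _)

theorem core_mono {C : Set (Set α)} {σ : ℕ} {S T : Set α} (h : S ⊆ T) :
    core C σ S ⊆ core C σ T := by
  intro x hx
  rw [mem_core] at hx ⊢
  intro M hM hc
  refine hull_mono ?_ (hx (M ∩ S) inter_subset_right ((encard_le_encard inter_subset_left).trans hc))
  intro y hy
  exact ⟨h hy.1, fun hyM => hy.2 ⟨hyM, hy.1⟩⟩

theorem core_small {X : Set α} {C : Set (Set α)} (h : Aligned X C) {σ : ℕ} {S : Set α}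
    (hS : S.encard ≤ σ) : core C σ S = ∅ := by
  ext x
  simp only [mem_empty_iff_false, iff_false]
  intro hx
  have := mem_core.1 hx S subset_rfl hS
  rw [sdiff_self, hull_empty h] at this
  exact this

theorem mem_hull_sum {X₁ X₂ : Set α} {C₁ C₂ : Set (Set α)} (h₁ : Aligned X₁ C₁)
    (h₂ : Aligned X₂ C₂) {S : Set α} (hS : S ⊆ X₁ ∪ X₂) {x : α} :
    x ∈ hull (alignedSum X₁ C₁ X₂ C₂) S ↔ x ∈ X₁ ∪ X₂ ∧ (x ∈ X₁ → x ∈ hull C₁ (S ∩ X₁)) ∧
      (x ∈ X₂ → x ∈ hull C₂ (S ∩ X₂)) := by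
  rw [mem_hull]
  constructor
  · intro h
    refine ⟨?_, fun hx => ?_, fun hx => ?_⟩
    · have := h _ ⟨X₁, h₁.whole, X₂, h₂.whole, rfl⟩ (by
        intro s hs
        rcases hS hs with h | h
        · by_cases h' : s ∈ X₂
          · exact Or.inr ⟨h, h'⟩
          · exact Or.inl (Or.inl ⟨h, h'⟩)
        · by_cases h' : s ∈ X₁
          · exact Or.inr ⟨h', h⟩
          · exact Or.inl (Or.inr ⟨h, h'⟩))
      rcases this with (h | h) | h
      · exact Or.inl h.1
      · exact Or.inr h.1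
      · exact Or.inl h.1
    · rw [mem_hull]
      intro A hA hSA
      have := h _ ⟨A, hA, X₂, h₂.whole, rfl⟩ (by
        intro s hs
        by_cases h' : s ∈ X₂
        · by_cases h1 : s ∈ X₁
          · exact Or.inr ⟨hSA ⟨hs, h1⟩, h'⟩
          · exact Or.inl (Or.inr ⟨h', h1⟩)
        · have h1 : s ∈ X₁ := (hS hs).resolve_right h'
          exact Or.inl (Or.inl ⟨hSA ⟨hs, h1⟩, h'⟩))
      rcases this with (h | h) | h
      · exact h.1
      · exact absurd hx h.2
      · exact h.1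
    · rw [mem_hull]
      intro B hB hSB
      have := h _ ⟨X₁, h₁.whole, B, hB, rfl⟩ (by
        intro s hs
        by_cases h' : s ∈ X₁
        · by_cases h1 : s ∈ X₂
          · exact Or.inr ⟨h', hSB ⟨hs, h1⟩⟩
          · exact Or.inl (Or.inl ⟨h', h1⟩)
        · have h1 : s ∈ X₂ := (hS hs).resolve_left h'
          exact Or.inl (Or.inr ⟨hSB ⟨hs, h1⟩, h'⟩))
      rcases this with (h | h) | h
      · exact absurd hx h.2
      · exact h.1
      · exact h.2
  · rintro ⟨hx, hx1, hx2⟩ D ⟨A, hA, B, hB, rfl⟩ hSD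
    have hSA : S ∩ X₁ ⊆ A := by
      rintro s ⟨hs, hs1⟩
      rcases hSD hs with (h | h) | h
      · exact h.1
      · exact absurd hs1 h.2
      · exact h.1
    have hSB : S ∩ X₂ ⊆ B := by
      rintro s ⟨hs, hs1⟩
      rcases hSD hs with (h | h) | h
      · exact absurd hs1 h.2
      · exact h.1
      · exact h.2
    by_cases h1 : x ∈ X₁
    · have hA' := mem_hull.1 (hx1 h1) A hA hSA
      by_cases h2 : x ∈ X₂
      · exact Or.inr ⟨hA', mem_hull.1 (hx2 h2) B hB hSB⟩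
      · exact Or.inl (Or.inl ⟨hA', h2⟩)
    · have h2 : x ∈ X₂ := hx.resolve_left h1
      exact Or.inl (Or.inr ⟨mem_hull.1 (hx2 h2) B hB hSB, h1⟩)

theorem mem_core_sum {X₁ X₂ : Set α} {C₁ C₂ : Set (Set α)} (h₁ : Aligned X₁ C₁)
    (h₂ : Aligned X₂ C₂) {σ : ℕ} {S : Set α} (hS : S ⊆ X₁ ∪ X₂) {x : α} :
    x ∈ core (alignedSum X₁ C₁ X₂ C₂) σ S ↔ x ∈ X₁ ∪ X₂ ∧ (x ∈ X₁ → x ∈ core C₁ σ (S ∩ X₁)) ∧
      (x ∈ X₂ → x ∈ core C₂ σ (S ∩ X₂)) := by
  rw [mem_core]
  constructor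
  · intro h
    refine ⟨?_, fun hx => ?_, fun hx => ?_⟩
    · have := h ∅ (empty_subset _) (by simp)
      rw [sdiff_empty, mem_hull_sum h₁ h₂ hS] at this
      exact this.1
    · rw [mem_core]
      intro M hM hc
      have := h M (hM.trans inter_subset_left) hc
      rw [mem_hull_sum h₁ h₂ (sdiff_subset.trans hS)] at this
      have := this.2.1 hx
      rwa [inter_sdiff_right_comm]
    · rw [mem_core]
      intro M hM hc
      have := h M (hM.trans inter_subset_left) hc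
      rw [mem_hull_sum h₁ h₂ (sdiff_subset.trans hS)] at this
      have := this.2.2 hx
      rwa [inter_sdiff_right_comm]
  · rintro ⟨hx, hx1, hx2⟩ M hM hc
    rw [mem_hull_sum h₁ h₂ (sdiff_subset.trans hS)]
    refine ⟨hx, fun h => ?_, fun h => ?_⟩
    · have := mem_core.1 (hx1 h) (M ∩ X₁) (inter_subset_inter_left _ hM)
        ((encard_le_encard inter_subset_left).trans hc)
      refine hull_mono ?_ this
      intro y hy
      exact ⟨⟨hy.1.1, fun hyM => hy.2 ⟨hyM, hy.1.2⟩⟩, hy.1.2⟩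
    · have := mem_core.1 (hx2 h) (M ∩ X₂) (inter_subset_inter_left _ hM)
        ((encard_le_encard inter_subset_left).trans hc)
      refine hull_mono ?_ this
      intro y hy
      exact ⟨⟨hy.1.1, fun hyM => hy.2 ⟨hyM, hy.1.2⟩⟩, hy.1.2⟩

theorem succ_cancel {a : ℕ∞} {n : ℕ} (h : a + 1 = (n : ℕ∞) + 1) : a = n := by
  induction a using ENat.recTopCoe with
  | top =>
    exfalso
    rw [top_add] at h
    have h2 : ((n + 1 : ℕ) : ℕ∞) = ⊤ := by exact_mod_cast h.symm
    exact ENat.natCast_ne_top _ h2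
  | coe m =>
    have h2 : ((m + 1 : ℕ) : ℕ∞) = ((n + 1 : ℕ) : ℕ∞) := by exact_mod_cast h
    have h3 : m + 1 = n + 1 := by exact_mod_cast h2
    have h4 : m = n := by omega
    rw [h4]

theorem helly_eq {X : Set α} {C : Set (Set α)} {σ : ℕ} {m : ℕ∞}
    (hle : ∀ S ⊆ X, core C σ S = ∅ → S.encard ≤ m)
    (hge : ∃ S ⊆ X, core C σ S = ∅ ∧ m ≤ S.encard) : helly X C σ = m := by
  apply le_antisymm
  · induction m using ENat.recTopCoe with
    | top => exact le_top
    | coe n =>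
      apply sInf_le
      refine ⟨n, rfl, fun S hS hc => ?_⟩
      by_contra hne
      rw [not_nonempty_iff_eq_empty] at hne
      have := hc.trans (hle S hS hne)
      have h2 : ((n + 1 : ℕ) : ℕ∞) ≤ (n : ℕ∞) := by exact_mod_cast this
      have h3 : n + 1 ≤ n := by exact_mod_cast h2
      omega
  · obtain ⟨S, hS, hc, hm⟩ := hge
    apply le_sInf
    rintro k ⟨n, rfl, hn⟩
    by_contra hlt
    push Not at hlt
    have h1 : (n : ℕ∞) < S.encard := hlt.trans_le hm
    have h2 : (n : ℕ∞) + 1 ≤ S.encard := Order.add_one_le_of_lt h1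
    have := hn S hS h2
    rw [hc] at this
    exact not_nonempty_empty this

theorem exists_of_lt_helly {X : Set α} {C : Set (Set α)} {σ n : ℕ}
    (h : (n : ℕ∞) < helly X C σ) : ∃ T ⊆ X, T.encard = n + 1 ∧ core C σ T = ∅ := by
  have h1 : ¬ ∀ S ⊆ X, (n : ℕ∞) + 1 ≤ S.encard → (core C σ S).Nonempty := by
    intro hc
    have h2 : helly X C σ ≤ (n : ℕ∞) := sInf_le ⟨n, rfl, hc⟩
    exact absurd h2 (not_le.2 h)
  push Not at h1
  obtain ⟨S, hS, hc, he⟩ := h1
  obtain ⟨T, hT, hTc⟩ := exists_subset_encard_eq hc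
  refine ⟨T, hT.trans hS, hTc, ?_⟩
  exact subset_empty_iff.1 ((core_mono hT).trans he.subset)

theorem lower {X₁ X₂ : Set α} {C₁ C₂ : Set (Set α)} (h₁ : Aligned X₁ C₁) (h₂ : Aligned X₂ C₂)
    {σ : ℕ} (hσ : 1 ≤ σ) :
    min (min (helly X₁ C₁ σ) (helly X₂ C₂ σ)) ((σ : ℕ∞) + 1) ≤
      helly (X₁ ∪ X₂) (alignedSum X₁ C₁ X₂ C₂) σ := by
  apply le_sInf
  rintro k ⟨n, rfl, hn⟩
  by_contra hlt
  push Not at hlt
  rw [lt_min_iff, lt_min_iff] at hlt
  obtain ⟨⟨hl1, hl2⟩, hl3⟩ := hlt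
  have hnσ : n ≤ σ := by
    have : (n : ℕ∞) < ((σ + 1 : ℕ) : ℕ∞) := by exact_mod_cast hl3
    have : n < σ + 1 := by exact_mod_cast this
    omega
  obtain ⟨T₁, hT1, hT1c, hT1e⟩ := exists_of_lt_helly hl1
  obtain ⟨T₂, hT2, hT2c, hT2e⟩ := exists_of_lt_helly hl2
  -- `T₁`
  have key1 : σ = n ∧ T₁ ⊆ X₂ ∧ ∃ b, b ∈ X₂ ∧ b ∉ X₁ := by
    obtain ⟨x, hx⟩ := hn T₁ (hT1.trans subset_union_left) hT1c.ge
    rw [mem_core_sum h₁ h₂ (hT1.trans subset_union_left)] at hx
    obtain ⟨hx, hx1, hx2⟩ := hx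
    have hx1' : x ∉ X₁ := by
      intro h
      have := hx1 h
      rw [inter_eq_left.2 hT1, hT1e] at this
      exact this
    have hxX2 : x ∈ X₂ := hx.resolve_left hx1'
    have hx3 := hx2 hxX2
    have hcard : ¬ (T₁ ∩ X₂).encard ≤ σ := by
      intro hc
      rw [core_small h₂ hc] at hx3
      exact hx3
    push Not at hcard
    have hfin : T₁.Finite := by
      rw [← encard_ne_top_iff, hT1c]
      exact_mod_cast ENat.natCast_ne_top (n + 1)
    have h4 : (T₁ ∩ X₂).encard ≤ (n : ℕ∞) + 1 := (encard_le_encard inter_subset_left).trans hT1c.le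
    have h5 : σ = n := by
      have h6 : (σ : ℕ∞) < ((n + 1 : ℕ) : ℕ∞) := by exact_mod_cast hcard.trans_le h4
      have h7 : σ < n + 1 := by exact_mod_cast h6
      omega
    refine ⟨h5, ?_, x, hxX2, hx1'⟩
    have h8 : (n : ℕ∞) + 1 ≤ (T₁ ∩ X₂).encard := by
      rw [← h5]
      exact Order.add_one_le_of_lt hcard
    have h9 : T₁ ∩ X₂ = T₁ :=
      hfin.eq_of_subset_of_encard_le' inter_subset_left (hT1c.le.trans h8)
    exact inter_eq_left.1 h9
  have key2 : T₂ ⊆ X₁ := by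
    obtain ⟨x, hx⟩ := hn T₂ (hT2.trans subset_union_right) hT2c.ge
    rw [mem_core_sum h₁ h₂ (hT2.trans subset_union_right)] at hx
    obtain ⟨hx, hx1, hx2⟩ := hx
    have hx1' : x ∉ X₂ := by
      intro h
      have := hx2 h
      rw [inter_eq_left.2 hT2, hT2e] at this
      exact this
    have hxX2 : x ∈ X₁ := hx.resolve_right hx1'
    have hx3 := hx1 hxX2
    have hcard : ¬ (T₂ ∩ X₁).encard ≤ σ := by
      intro hc
      rw [core_small h₁ hc] at hx3
      exact hx3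
    push Not at hcard
    have hfin : T₂.Finite := by
      rw [← encard_ne_top_iff, hT2c]
      exact_mod_cast ENat.natCast_ne_top (n + 1)
    have h8 : (n : ℕ∞) + 1 ≤ (T₂ ∩ X₁).encard := by
      rw [← key1.1]
      exact Order.add_one_le_of_lt hcard
    have h9 : T₂ ∩ X₁ = T₂ :=
      hfin.eq_of_subset_of_encard_le' inter_subset_left (hT2c.le.trans h8)
    exact inter_eq_left.1 h9
  obtain ⟨hσn, -, b, hb2, hb1⟩ := key1
  subst hσn
  have hbT : b ∉ T₂ := fun h => hb1 (key2 h)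
  -- the points `c u`
  have hc : ∀ u ∈ T₂, ∃ c, c ∉ X₁ ∧ c ∈ X₂ ∧ ∀ w ∈ T₂, w ≠ u → c ∈ hull C₂ {w} := by
    intro u hu
    set S := insert b (T₂ \ {u}) with hS
    have hScard : S.encard = σ + 1 := by
      rw [hS, encard_insert_of_notMem (fun h => hbT h.1), encard_sdiff_singleton_add_one hu, hT2c]
    have hSX2 : S ⊆ X₂ := by
      rw [hS]
      exact insert_subset hb2 (sdiff_subset.trans hT2)
    have hSX : S ⊆ X₁ ∪ X₂ := hSX2.trans subset_union_right
    obtain ⟨c, hc⟩ := hn S hSX hScard.ge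
    rw [mem_core_sum h₁ h₂ hSX] at hc
    obtain ⟨hcX, hc1, hc2⟩ := hc
    have hcn : c ∉ X₁ := by
      intro h
      have h3 := hc1 h
      have h4 : (S ∩ X₁).encard ≤ σ := by
        have h5 : S ∩ X₁ ⊆ T₂ \ {u} := by
          rintro y ⟨hy, hy1⟩
          rcases hy with rfl | hy
          · exact absurd hy1 hb1
          · exact hy
        have h6 : (T₂ \ {u}).encard + 1 = (σ : ℕ∞) + 1 := by
          rw [encard_sdiff_singleton_add_one hu, hT2c]
        have h7 : (T₂ \ {u}).encard = σ := by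
          exact succ_cancel h6
        exact (encard_le_encard h5).trans h7.le
      rw [core_small h₁ h4] at h3
      exact h3
    have hcX2 : c ∈ X₂ := hcX.resolve_left hcn
    refine ⟨c, hcn, hcX2, fun w hw hwu => ?_⟩
    have h3 := hc2 hcX2
    rw [inter_eq_left.2 hSX2] at h3
    have hwS : w ∈ S := Or.inr ⟨hw, hwu⟩
    have h4 := mem_core.1 h3 (S \ {w}) sdiff_subset (by
      have h6 : (S \ {w}).encard + 1 = (σ : ℕ∞) + 1 := by
        rw [encard_sdiff_singleton_add_one hwS, hScard]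
      exact (succ_cancel h6).le)
    rwa [sdiff_sdiff_cancel_left (singleton_subset_iff.2 hwS)] at h4
  choose! c hcX1 hcX2 hch using hc
  have hcoreT : ∀ x, (∀ w ∈ T₂, x ∈ hull C₂ {w}) → False := by
    intro x hx
    have : x ∈ core C₂ σ T₂ := by
      rw [mem_core]
      intro M hM hMc
      have hne : (T₂ \ M).Nonempty := by
        by_contra hne
        rw [not_nonempty_iff_eq_empty, sdiff_eq_empty] at hne
        have h1 := (encard_le_encard hne).trans hMc
        rw [hT2c] at h1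
        have h2 : ((σ + 1 : ℕ) : ℕ∞) ≤ (σ : ℕ∞) := by exact_mod_cast h1
        have h3 : σ + 1 ≤ σ := by exact_mod_cast h2
        omega
      obtain ⟨w, hw⟩ := hne
      exact hull_mono (singleton_subset_iff.2 hw) (hx w hw.1)
    rw [hT2e] at this
    exact this
  have hinj : InjOn c T₂ := by
    intro u hu w hw huw
    by_contra hne
    refine hcoreT (c u) fun y hy => ?_
    by_cases hyu : y = u
    · rw [huw]
      exact hch w hw y hy (by rw [hyu]; exact hne)
    · exact hch u hu y hy hyu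
  set S := c '' T₂ with hS
  have hScard : S.encard = σ + 1 := by rw [hS, hinj.encard_image, hT2c]
  have hSX2 : S ⊆ X₂ := by
    rintro _ ⟨u, hu, rfl⟩
    exact hcX2 u hu
  have hSX : S ⊆ X₁ ∪ X₂ := hSX2.trans subset_union_right
  obtain ⟨x, hx⟩ := hn S hSX hScard.ge
  rw [mem_core_sum h₁ h₂ hSX] at hx
  obtain ⟨hxX, hx1, hx2⟩ := hx
  have hxn : x ∉ X₁ := by
    intro h
    have h3 := hx1 h
    have h4 : S ∩ X₁ = ∅ := by
      ext y
      simp only [mem_inter_iff, mem_empty_iff_false, iff_false, not_and]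
      rintro ⟨u, hu, rfl⟩
      exact hcX1 u hu
    rw [h4, core_small h₁ (by simp)] at h3
    exact h3
  have h3 := hx2 (hxX.resolve_left hxn)
  rw [inter_eq_left.2 hSX2] at h3
  refine hcoreT x fun w hw => ?_
  -- another element of `T₂`
  have hex : ∃ u ∈ T₂, u ≠ w := by
    by_contra hne
    push Not at hne
    have h5 : T₂ ⊆ {w} := fun y hy => hne y hy
    have h6 := encard_le_encard h5
    rw [hT2c, encard_singleton] at h6
    have h7 : ((σ + 1 : ℕ) : ℕ∞) ≤ ((1 : ℕ) : ℕ∞) := by exact_mod_cast h6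
    have h8 : σ + 1 ≤ 1 := by exact_mod_cast h7
    omega
  obtain ⟨u, hu, huw⟩ := hex
  have hcS : c u ∈ S := ⟨u, hu, rfl⟩
  have h4 := mem_core.1 h3 (S \ {c u}) sdiff_subset (by
    have h6 : (S \ {c u}).encard + 1 = (σ : ℕ∞) + 1 := by
      rw [encard_sdiff_singleton_add_one hcS, hScard]
    exact (succ_cancel h6).le)
  rw [sdiff_sdiff_cancel_left (singleton_subset_iff.2 hcS)] at h4
  exact hull_le_of_mem (hch u hu w hw huw.symm) h4

/-- The family of the examples: the subsets of `X` which are contained in `T` or contain `b`. -/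
def fam (X T : Set α) (b : α) : Set (Set α) := {A | A ⊆ X ∧ (A ⊆ T ∨ b ∈ A)}

theorem aligned_fam {X T : Set α} {b : α} (hb : b ∈ X) : Aligned X (fam X T b) where
  sub := fun _ h => h.1
  empty := ⟨empty_subset _, Or.inl (empty_subset _)⟩
  whole := ⟨subset_rfl, Or.inr hb⟩
  inter := by
    intro F hF hne
    refine ⟨?_, ?_⟩
    · obtain ⟨A, hA⟩ := hne
      exact (sInter_subset_of_mem hA).trans (hF hA).1
    · by_cases h : ∃ A ∈ F, A ⊆ T
      · obtain ⟨A, hA, hAT⟩ := h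
        exact Or.inl ((sInter_subset_of_mem hA).trans hAT)
      · push Not at h
        right
        intro A hA
        exact (hF hA).2.resolve_left (h A hA)
  chain := by
    intro F hF _ _
    refine ⟨sUnion_subset fun A hA => (hF hA).1, ?_⟩
    by_cases h : ∃ A ∈ F, b ∈ A
    · obtain ⟨A, hA, hAT⟩ := h
      exact Or.inr ⟨A, hA, hAT⟩
    · push Not at h
      exact Or.inl (sUnion_subset fun A hA => (hF hA).2.resolve_right (h A hA))

theorem core_fam {X T : Set α} {b : α} (hb : b ∈ X) (hbT : b ∉ T) {σ : ℕ} (hσ : 1 ≤ σ)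
    {S : Set α} (hS : S ⊆ X) {x : α} :
    x ∈ core (fam X T b) σ S ↔ x = b ∧ (σ : ℕ∞) < (S \ T).encard := by
  constructor
  · intro hx
    rw [mem_core] at hx
    have hxb : x = b := by
      by_contra hxb
      have h1 := hx (S ∩ {x}) inter_subset_left (by
        refine (encard_le_encard inter_subset_right).trans ?_
        rw [encard_singleton]
        exact_mod_cast hσ)
      have h2 := mem_hull.1 h1 (insert b (S \ {x}))
        ⟨insert_subset hb (sdiff_subset.trans hS), Or.inr (mem_insert _ _)⟩ (by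
          rintro y ⟨hy, hy2⟩
          exact Or.inr ⟨hy, fun hyx => hy2 ⟨hy, hyx⟩⟩)
      rcases h2 with h2 | h2
      · exact hxb h2
      · exact h2.2 rfl
    refine ⟨hxb, ?_⟩
    by_contra hlt
    push Not at hlt
    have h1 := hx (S \ T) sdiff_subset hlt
    have h2 := mem_hull.1 h1 (S ∩ T) ⟨inter_subset_left.trans hS, Or.inl inter_subset_right⟩ (by
      rintro y ⟨hy, hy2⟩
      exact ⟨hy, by_contra fun h => hy2 ⟨hy, h⟩⟩)
    rw [hxb] at h2
    exact hbT h2.2
  · rintro ⟨rfl, hlt⟩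
    rw [mem_core]
    intro M hM hc
    rw [mem_hull]
    rintro A ⟨-, hA⟩ hSA
    rcases hA with hA | hA
    · exfalso
      have h1 : S \ T ⊆ M := by
        rintro y ⟨hy, hyT⟩
        by_contra hyM
        exact hyT (hA (hSA ⟨hy, hyM⟩))
      exact absurd ((encard_le_encard h1).trans hc) (not_le.2 hlt)
    · exact hA

theorem helly_fam {X T : Set α} {b : α} (hb : b ∈ X) (hbT : b ∉ T) (hTX : T ⊆ X) {σ : ℕ}
    (hσ : 1 ≤ σ) (hX : (σ : ℕ∞) ≤ (X \ T).encard) : helly X (fam X T b) σ = T.encard + σ := by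
  apply helly_eq
  · intro S hS hc
    have h1 : (S \ T).encard ≤ σ := by
      by_contra hlt
      push Not at hlt
      have : b ∈ core (fam X T b) σ S := (core_fam hb hbT hσ hS).2 ⟨rfl, hlt⟩
      rw [hc] at this
      exact this
    calc S.encard ≤ (T ∪ (S \ T)).encard := encard_le_encard (by
          intro y hy
          by_cases h : y ∈ T
          · exact Or.inl h
          · exact Or.inr ⟨hy, h⟩)
      _ ≤ T.encard + (S \ T).encard := encard_union_le _ _
      _ ≤ _ := by gcongr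
  · obtain ⟨R, hR, hRc⟩ := exists_subset_encard_eq hX
    have hRX : R ⊆ X := hR.trans sdiff_subset
    have hdis : Disjoint T R := by
      rw [Set.disjoint_left]
      exact fun y hy hyR => (hR hyR).2 hy
    refine ⟨T ∪ R, union_subset hTX hRX, ?_, ?_⟩
    · ext x
      simp only [mem_empty_iff_false, iff_false]
      intro hx
      rw [core_fam hb hbT hσ (union_subset hTX hRX)] at hx
      have h1 : (T ∪ R) \ T ⊆ R := by
        rintro y ⟨hy | hy, hyT⟩
        · exact absurd hy hyT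
        · exact hy
      exact absurd ((encard_le_encard h1).trans hRc.le) (not_le.2 hx.2)
    · rw [encard_union_eq hdis, hRc]

theorem alignedSum_comm (X₁ : Set α) (C₁ : Set (Set α)) (X₂ : Set α) (C₂ : Set (Set α)) :
    alignedSum X₁ C₁ X₂ C₂ = alignedSum X₂ C₂ X₁ C₁ := by
  ext D
  constructor
  · rintro ⟨A, hA, B, hB, rfl⟩
    exact ⟨B, hB, A, hA, by rw [union_comm (A \ X₂), inter_comm]⟩
  · rintro ⟨A, hA, B, hB, rfl⟩
    exact ⟨B, hB, A, hA, by rw [union_comm (A \ X₁), inter_comm]⟩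

/-- The sum with a space whose special point is not in the other space. -/
theorem helly_sum_one {X₁ X₂ T : Set α} {C₁ : Set (Set α)} (h₁ : Aligned X₁ C₁) {b : α}
    (hb : b ∈ X₂) (hb1 : b ∉ X₁) (hbT : b ∉ T) (hTX : T ⊆ X₂) (h12 : X₁ ⊆ X₂) {σ : ℕ}
    (hσ : 1 ≤ σ) (hX : (σ : ℕ∞) ≤ (X₂ \ T).encard) :
    helly (X₁ ∪ X₂) (alignedSum X₁ C₁ X₂ (fam X₂ T b)) σ = T.encard + σ := by
  have h₂ : Aligned X₂ (fam X₂ T b) := aligned_fam hb
  apply helly_eq
  · intro S hS hc
    have hS2 : S ⊆ X₂ := hS.trans (union_subset h12 subset_rfl)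
    have h1 : (S \ T).encard ≤ σ := by
      by_contra hlt
      push Not at hlt
      have : b ∈ core (alignedSum X₁ C₁ X₂ (fam X₂ T b)) σ S := by
        rw [mem_core_sum h₁ h₂ hS]
        refine ⟨Or.inr hb, fun h => absurd h hb1, fun _ => ?_⟩
        rw [inter_eq_left.2 hS2]
        exact (core_fam hb hbT hσ hS2).2 ⟨rfl, hlt⟩
      rw [hc] at this
      exact this
    calc S.encard ≤ (T ∪ (S \ T)).encard := encard_le_encard (by
          intro y hy
          by_cases h : y ∈ T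
          · exact Or.inl h
          · exact Or.inr ⟨hy, h⟩)
      _ ≤ T.encard + (S \ T).encard := encard_union_le _ _
      _ ≤ _ := by gcongr
  · obtain ⟨R, hR, hRc⟩ := exists_subset_encard_eq hX
    have hRX : R ⊆ X₂ := hR.trans sdiff_subset
    have hdis : Disjoint T R := by
      rw [Set.disjoint_left]
      exact fun y hy hyR => (hR hyR).2 hy
    have hTR : T ∪ R ⊆ X₂ := union_subset hTX hRX
    refine ⟨T ∪ R, hTR.trans subset_union_right, ?_, ?_⟩
    · ext x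
      simp only [mem_empty_iff_false, iff_false]
      intro hx
      rw [mem_core_sum h₁ h₂ (hTR.trans subset_union_right)] at hx
      obtain ⟨hx, -, hx2⟩ := hx
      have hx3 := hx2 (hx.elim (fun h => h12 h) id)
      rw [inter_eq_left.2 hTR, core_fam hb hbT hσ hTR] at hx3
      have h1 : (T ∪ R) \ T ⊆ R := by
        rintro y ⟨hy | hy, hyT⟩
        · exact absurd hy hyT
        · exact hy
      exact absurd ((encard_le_encard h1).trans hRc.le) (not_le.2 hx3.2)
    · rw [encard_union_eq hdis, hRc]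

/-- The points of colour `k` and index less than `m`. -/
def pts (k : Fin 5) (m : ℕ∞) : Set (Fin 5 × ℕ) := {x | x.1 = k ∧ (x.2 : ℕ∞) < m}

theorem encard_pts (k : Fin 5) (m : ℕ∞) : (pts k m).encard = m := by
  have h1 : pts k m = (fun n : ℕ => (k, n)) '' {n : ℕ | (n : ℕ∞) < m} := by
    ext ⟨i, n⟩
    simp only [pts, mem_ofPred_eq, mem_image, Prod.mk.injEq]
    constructor
    · rintro ⟨rfl, h⟩
      exact ⟨n, h, rfl, rfl⟩
    · rintro ⟨n', h, rfl, rfl⟩
      exact ⟨rfl, h⟩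
  have hinj : Function.Injective (fun n : ℕ => (k, n)) := fun a b h => (Prod.mk.inj h).2
  rw [h1, hinj.encard_image]
  induction m using ENat.recTopCoe with
  | top =>
    have : {n : ℕ | (n : ℕ∞) < ⊤} = univ := by
      ext n
      simp
    rw [this, encard_eq_top_iff]
    exact infinite_univ
  | coe m =>
    have : {n : ℕ | (n : ℕ∞) < (m : ℕ∞)} = ↑(Finset.range m) := by
      ext n
      simp
    rw [this, encard_coe_eq_coe_finsetCard, Finset.card_range]

theorem filler {X : Set (Fin 5 × ℕ)} {k : Fin 5} {m : ℕ∞} (hk : k ≠ 2) (hX : pts 2 ⊤ ⊆ X) (σ : ℕ) :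
    (σ : ℕ∞) ≤ (X \ pts k m).encard := by
  have h1 : pts 2 ⊤ ⊆ X \ pts k m := by
    intro x hx
    refine ⟨hX hx, fun h => hk ?_⟩
    rw [← h.1, hx.1]
  have h2 := encard_le_encard h1
  rw [encard_pts] at h2
  exact le_top.trans h2

theorem not_mem_pts {i k : Fin 5} (h : i ≠ k) (n : ℕ) (m : ℕ∞) : (i, n) ∉ pts k m :=
  fun hc => h hc.1

/-- No upper bound. -/
theorem unbounded (σ : ℕ) (j₁ j₂ : ℕ∞) (hσ : 1 ≤ σ) :
    ∃ (X₁ X₂ : Set (Fin 5 × ℕ)) (C₁ C₂ : Set (Set (Fin 5 × ℕ))),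
      Aligned X₁ C₁ ∧ Aligned X₂ C₂ ∧ helly X₁ C₁ σ = j₁ + σ ∧ helly X₂ C₂ σ = j₂ + σ ∧
      helly (X₁ ∪ X₂) (alignedSum X₁ C₁ X₂ C₂) σ = ⊤ := by
  have h₁ : Aligned (univ : Set (Fin 5 × ℕ)) (fam univ (pts 0 j₁) (3, 0)) := aligned_fam (mem_univ _)
  have h₂ : Aligned (univ : Set (Fin 5 × ℕ)) (fam univ (pts 1 j₂) (4, 0)) := aligned_fam (mem_univ _)
  refine ⟨univ, univ, fam univ (pts 0 j₁) (3, 0), fam univ (pts 1 j₂) (4, 0), h₁, h₂, ?_, ?_, ?_⟩
  · rw [helly_fam (mem_univ _) (not_mem_pts (by decide) _ _) (subset_univ _) hσ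
      (filler (by decide) (subset_univ _) σ), encard_pts]
  · rw [helly_fam (mem_univ _) (not_mem_pts (by decide) _ _) (subset_univ _) hσ
      (filler (by decide) (subset_univ _) σ), encard_pts]
  · apply helly_eq
    · intro S _ _
      exact le_top
    · refine ⟨univ, subset_union_left, ?_, ?_⟩
      · ext x
        simp only [mem_empty_iff_false, iff_false]
        intro hx
        rw [mem_core_sum h₁ h₂ subset_union_left] at hx
        obtain ⟨-, hx1, hx2⟩ := hx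
        have h1 := hx1 (mem_univ _)
        have h2 := hx2 (mem_univ _)
        rw [core_fam (mem_univ _) (not_mem_pts (by decide) _ _) hσ (subset_univ _)] at h1 h2
        have h3 := h1.1.symm.trans h2.1
        exact absurd (Prod.mk.inj h3).1 (by decide)
      · rw [← encard_pts 2 ⊤]
        exact encard_le_encard (subset_univ _)

/-- The first small example. -/
theorem small_one (σ : ℕ) (j₁ j₂ : ℕ∞) (hσ : 1 ≤ σ) :
    ∃ (X₁ X₂ : Set (Fin 5 × ℕ)) (C₁ C₂ : Set (Set (Fin 5 × ℕ))),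
      Aligned X₁ C₁ ∧ Aligned X₂ C₂ ∧ helly X₁ C₁ σ = j₁ + σ ∧ helly X₂ C₂ σ = j₂ + σ ∧
      helly (X₁ ∪ X₂) (alignedSum X₁ C₁ X₂ C₂) σ = j₂ + σ := by
  have hm : ((3, 0) : Fin 5 × ℕ) ∈ (univ \ {(4, 0)} : Set (Fin 5 × ℕ)) :=
    ⟨mem_univ _, fun h => absurd (Prod.mk.inj h).1 (by decide)⟩
  have h₁ : Aligned (univ \ {(4, 0)} : Set (Fin 5 × ℕ)) (fam (univ \ {(4, 0)}) (pts 0 j₁) (3, 0)) :=
    aligned_fam hm
  have hsub : ∀ (k : Fin 5) (m : ℕ∞), k ≠ 4 → pts k m ⊆ (univ \ {(4, 0)} : Set (Fin 5 × ℕ)) := by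
    intro k m hk x hx
    refine ⟨mem_univ _, fun h => hk ?_⟩
    rw [← hx.1, h]
  refine ⟨univ \ {(4, 0)}, univ, fam (univ \ {(4, 0)}) (pts 0 j₁) (3, 0),
    fam univ (pts 1 j₂) (4, 0), h₁, aligned_fam (mem_univ _), ?_, ?_, ?_⟩
  · rw [helly_fam hm (not_mem_pts (by decide) _ _) (hsub 0 _ (by decide)) hσ
      (filler (by decide) (hsub 2 _ (by decide)) σ), encard_pts]
  · rw [helly_fam (mem_univ _) (not_mem_pts (by decide) _ _) (subset_univ _) hσ
      (filler (by decide) (subset_univ _) σ), encard_pts]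
  · rw [helly_sum_one h₁ (mem_univ _) (fun h => h.2 rfl) (not_mem_pts (by decide) _ _)
      (subset_univ _) (subset_univ _) hσ (filler (by decide) (subset_univ _) σ), encard_pts]

/-- The second small example. -/
theorem small_two (σ : ℕ) (j₁ j₂ : ℕ∞) (hσ : 1 ≤ σ) (hj1 : (σ : ℕ∞) ≤ j₁) (hj2 : (σ : ℕ∞) ≤ j₂) :
    ∃ (X₁ X₂ : Set (Fin 5 × ℕ)) (C₁ C₂ : Set (Set (Fin 5 × ℕ))),
      Aligned X₁ C₁ ∧ Aligned X₂ C₂ ∧ helly X₁ C₁ σ = j₁ + σ ∧ helly X₂ C₂ σ = j₂ + σ ∧
      helly (X₁ ∪ X₂) (alignedSum X₁ C₁ X₂ C₂) σ = (σ : ℕ∞) + σ := by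
  set X₁ : Set (Fin 5 × ℕ) := univ \ {(4, 0)} with hX₁
  set X₂ : Set (Fin 5 × ℕ) := univ \ {(3, 0)} with hX₂
  have hm1 : ((3, 0) : Fin 5 × ℕ) ∈ X₁ :=
    ⟨mem_univ _, fun h => absurd (Prod.mk.inj h).1 (by decide)⟩
  have hm2 : ((4, 0) : Fin 5 × ℕ) ∈ X₂ :=
    ⟨mem_univ _, fun h => absurd (Prod.mk.inj h).1 (by decide)⟩
  have hn1 : ((4, 0) : Fin 5 × ℕ) ∉ X₁ := fun h => h.2 rfl
  have hn2 : ((3, 0) : Fin 5 × ℕ) ∉ X₂ := fun h => h.2 rfl
  have h₁ : Aligned X₁ (fam X₁ (pts 0 j₁) (3, 0)) := aligned_fam hm1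
  have h₂ : Aligned X₂ (fam X₂ (pts 1 j₂) (4, 0)) := aligned_fam hm2
  have hsub1 : ∀ (k : Fin 5) (m : ℕ∞), k ≠ 4 → pts k m ⊆ X₁ := by
    intro k m hk x hx
    refine ⟨mem_univ _, fun h => hk ?_⟩
    rw [← hx.1, h]
  have hsub2 : ∀ (k : Fin 5) (m : ℕ∞), k ≠ 3 → pts k m ⊆ X₂ := by
    intro k m hk x hx
    refine ⟨mem_univ _, fun h => hk ?_⟩
    rw [← hx.1, h]
  have hb1 : ((3, 0) : Fin 5 × ℕ) ∉ pts 0 j₁ := not_mem_pts (by decide) _ _
  have hb2 : ((4, 0) : Fin 5 × ℕ) ∉ pts 1 j₂ := not_mem_pts (by decide) _ _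
  refine ⟨X₁, X₂, fam X₁ (pts 0 j₁) (3, 0), fam X₂ (pts 1 j₂) (4, 0), h₁, h₂, ?_, ?_, ?_⟩
  · rw [helly_fam hm1 hb1 (hsub1 0 _ (by decide)) hσ
      (filler (by decide) (hsub1 2 _ (by decide)) σ), encard_pts]
  · rw [helly_fam hm2 hb2 (hsub2 1 _ (by decide)) hσ
      (filler (by decide) (hsub2 2 _ (by decide)) σ), encard_pts]
  · apply helly_eq
    · intro S hS hc
      have e1 : ((S ∩ X₁) \ pts 0 j₁).encard ≤ σ := by
        by_contra hlt
        push Not at hlt
        have : ((3, 0) : Fin 5 × ℕ) ∈ core (alignedSum X₁ (fam X₁ (pts 0 j₁) (3, 0)) X₂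
            (fam X₂ (pts 1 j₂) (4, 0))) σ S := by
          rw [mem_core_sum h₁ h₂ hS]
          exact ⟨Or.inl hm1, fun _ => (core_fam hm1 hb1 hσ inter_subset_right).2 ⟨rfl, hlt⟩,
            fun h => absurd h hn2⟩
        rw [hc] at this
        exact this
      have e2 : ((S ∩ X₂) \ pts 1 j₂).encard ≤ σ := by
        by_contra hlt
        push Not at hlt
        have : ((4, 0) : Fin 5 × ℕ) ∈ core (alignedSum X₁ (fam X₁ (pts 0 j₁) (3, 0)) X₂
            (fam X₂ (pts 1 j₂) (4, 0))) σ S := by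
          rw [mem_core_sum h₁ h₂ hS]
          exact ⟨Or.inr hm2, fun h => absurd h hn1,
            fun _ => (core_fam hm2 hb2 hσ inter_subset_right).2 ⟨rfl, hlt⟩⟩
        rw [hc] at this
        exact this
      calc S.encard ≤ (((S ∩ X₁) \ pts 0 j₁) ∪ ((S ∩ X₂) \ pts 1 j₂)).encard :=
            encard_le_encard (by
              intro y hy
              by_cases h : y ∈ pts 0 j₁
              · refine Or.inr ⟨⟨hy, hsub2 0 _ (by decide) h⟩, fun h' => ?_⟩
                exact absurd (h.1.symm.trans h'.1) (by decide)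
              · by_cases h4 : y = (4, 0)
                · refine Or.inr ⟨⟨hy, ?_⟩, ?_⟩
                  · rw [h4]; exact hm2
                  · rw [h4]; exact hb2
                · exact Or.inl ⟨⟨hy, mem_univ _, h4⟩, h⟩)
        _ ≤ _ := encard_union_le _ _
        _ ≤ _ := add_le_add e1 e2
    · obtain ⟨P, hP, hPc⟩ := exists_subset_encard_eq (hj1.trans (encard_pts 0 j₁).ge)
      obtain ⟨Q, hQ, hQc⟩ := exists_subset_encard_eq (hj2.trans (encard_pts 1 j₂).ge)
      have hdis : Disjoint P Q := by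
        rw [Set.disjoint_left]
        exact fun y hy hyQ => absurd ((hP hy).1.symm.trans (hQ hyQ).1) (by decide)
      have hS : P ∪ Q ⊆ X₁ ∪ X₂ :=
        union_subset ((hP.trans (hsub1 0 _ (by decide))).trans subset_union_left)
          ((hQ.trans (hsub2 1 _ (by decide))).trans subset_union_right)
      refine ⟨P ∪ Q, hS, ?_, ?_⟩
      · ext x
        simp only [mem_empty_iff_false, iff_false]
        intro hx
        rw [mem_core_sum h₁ h₂ hS] at hx
        obtain ⟨hx, hx1, hx2⟩ := hx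
        rcases hx with hx | hx
        · have h3 := hx1 hx
          rw [core_fam hm1 hb1 hσ inter_subset_right] at h3
          have h4 : ((P ∪ Q) ∩ X₁) \ pts 0 j₁ ⊆ Q := by
            rintro y ⟨⟨hy | hy, -⟩, hyT⟩
            · exact absurd (hP hy) hyT
            · exact hy
          exact absurd ((encard_le_encard h4).trans hQc.le) (not_le.2 h3.2)
        · have h3 := hx2 hx
          rw [core_fam hm2 hb2 hσ inter_subset_right] at h3
          have h4 : ((P ∪ Q) ∩ X₂) \ pts 1 j₂ ⊆ P := by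
            rintro y ⟨⟨hy | hy, -⟩, hyT⟩
            · exact hy
            · exact absurd (hQ hy) hyT
          exact absurd ((encard_le_encard h4).trans hPc.le) (not_le.2 h3.2)
      · rw [encard_union_eq hdis, hPc, hQc]

theorem le_helly {X : Set α} {C : Set (Set α)} {σ : ℕ} {m : ℕ∞} {S : Set α} (hS : S ⊆ X)
    (hc : core C σ S = ∅) (hm : m ≤ S.encard) : m ≤ helly X C σ := by
  apply le_sInf
  rintro k ⟨n, rfl, hn⟩
  by_contra hlt
  push Not at hlt
  have h2 : (n : ℕ∞) + 1 ≤ S.encard := Order.add_one_le_of_lt (hlt.trans_le hm)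
  have := hn S hS h2
  rw [hc] at this
  exact not_nonempty_empty this

theorem encard_lt_of_helly_lt {X : Set α} {C : Set (Set α)} (h : Aligned X C) {σ : ℕ}
    (hl : helly X C σ < σ) : X.encard < σ := by
  by_contra hc
  push Not at hc
  obtain ⟨R, hR, hRc⟩ := exists_subset_encard_eq hc
  exact absurd (le_helly hR (core_small h hRc.le) hRc.ge) (not_le.2 hl)

theorem helly_small {X : Set α} {C : Set (Set α)} (h : Aligned X C) {σ : ℕ}
    (hl : X.encard ≤ σ) : helly X C σ = X.encard :=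
  helly_eq (fun _ hS _ => encard_le_encard hS) ⟨X, subset_rfl, core_small h hl, le_rfl⟩

theorem helly_sum_both {X₁ X₂ : Set α} {C₁ C₂ : Set (Set α)} (h₁ : Aligned X₁ C₁)
    (h₂ : Aligned X₂ C₂) {σ : ℕ} (hl1 : X₁.encard ≤ σ) (hl2 : X₂.encard ≤ σ) :
    helly (X₁ ∪ X₂) (alignedSum X₁ C₁ X₂ C₂) σ = (X₁ ∪ X₂).encard := by
  refine helly_eq (fun _ hS _ => encard_le_encard hS) ⟨X₁ ∪ X₂, subset_rfl, ?_, le_rfl⟩
  ext x
  simp only [mem_empty_iff_false, iff_false]
  intro hx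
  rw [mem_core_sum h₁ h₂ subset_rfl] at hx
  obtain ⟨hx, hx1, hx2⟩ := hx
  rcases hx with hx | hx
  · have h3 := hx1 hx
    rw [core_small h₁ ((encard_le_encard inter_subset_right).trans hl1)] at h3
    exact h3
  · have h3 := hx2 hx
    rw [core_small h₂ ((encard_le_encard inter_subset_right).trans hl2)] at h3
    exact h3

theorem lower_small {X₁ X₂ : Set α} {C₁ C₂ : Set (Set α)} (h₁ : Aligned X₁ C₁)
    (h₂ : Aligned X₂ C₂) {σ : ℕ} (hl1 : X₁.encard ≤ σ) :
    max (helly X₁ C₁ σ) (helly X₂ C₂ σ) ≤ helly (X₁ ∪ X₂) (alignedSum X₁ C₁ X₂ C₂) σ := by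
  apply max_le
  · rw [helly_small h₁ hl1]
    refine le_helly (S := X₁) subset_union_left ?_ le_rfl
    ext x
    simp only [mem_empty_iff_false, iff_false]
    intro hx
    rw [mem_core_sum h₁ h₂ subset_union_left] at hx
    obtain ⟨hx, hx1, hx2⟩ := hx
    rcases hx with hx | hx
    · have h3 := hx1 hx
      rw [core_small h₁ ((encard_le_encard inter_subset_right).trans hl1)] at h3
      exact h3
    · have h3 := hx2 hx
      rw [core_small h₂ ((encard_le_encard inter_subset_left).trans hl1)] at h3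
      exact h3
  · apply le_sInf
    rintro k ⟨n, rfl, hn⟩
    by_contra hlt
    push Not at hlt
    obtain ⟨T, hT, hTc, hTe⟩ := exists_of_lt_helly hlt
    obtain ⟨x, hx⟩ := hn T (hT.trans subset_union_right) hTc.ge
    rw [mem_core_sum h₁ h₂ (hT.trans subset_union_right)] at hx
    obtain ⟨hx, hx1, hx2⟩ := hx
    rcases hx with hx | hx
    · have h3 := hx1 hx
      rw [core_small h₁ ((encard_le_encard inter_subset_right).trans hl1)] at h3
      exact h3
    · have h3 := hx2 hx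
      rw [inter_eq_left.2 hT, hTe] at h3
      exact h3

theorem sum_empty {X₂ : Set α} {C₁ C₂ : Set (Set α)} (h₁ : Aligned ∅ C₁) :
    alignedSum ∅ C₁ X₂ C₂ = C₂ := by
  ext D
  constructor
  · rintro ⟨A, hA, B, hB, rfl⟩
    have : A = ∅ := subset_empty_iff.1 (h₁.sub A hA)
    subst this
    simpa using hB
  · intro hD
    exact ⟨∅, h₁.empty, D, hD, by simp⟩

theorem eq_empty_of_helly {X : Set α} {C : Set (Set α)} (h : Aligned X C) {σ : ℕ} (hσ : 1 ≤ σ)
    (h0 : helly X C σ = 0) : X = ∅ := by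
  by_contra hne
  obtain ⟨x, hx⟩ := nonempty_iff_ne_empty.2 hne
  have h1 : (1 : ℕ∞) ≤ helly X C σ := by
    refine le_helly (S := {x}) (singleton_subset_iff.2 hx) (core_small h ?_) ?_
    · rw [encard_singleton]
      exact_mod_cast hσ
    · rw [encard_singleton]
  rw [h0] at h1
  exact absurd h1 (by simp)

/-- The triple `(m₁, m₂, m)` of `σ`-Helly numbers of two aligned spaces and of their aligned sum
occurs. -/
def Occurs (σ : ℕ) (m₁ m₂ m : ℕ∞) : Prop :=
  ∃ (α : Type) (X₁ X₂ : Set α) (C₁ C₂ : Set (Set α)), Aligned X₁ C₁ ∧ Aligned X₂ C₂ ∧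
    helly X₁ C₁ σ = m₁ ∧ helly X₂ C₂ σ = m₂ ∧
    helly (X₁ ∪ X₂) (alignedSum X₁ C₁ X₂ C₂) σ = m

theorem Occurs.symm {σ : ℕ} {m₁ m₂ m : ℕ∞} (h : Occurs σ m₁ m₂ m) : Occurs σ m₂ m₁ m := by
  obtain ⟨α, X₁, X₂, C₁, C₂, h1, h2, h3, h4, h5⟩ := h
  refine ⟨α, X₂, X₁, C₂, C₁, h2, h1, h4, h3, ?_⟩
  rw [union_comm, alignedSum_comm]
  exact h5

theorem aligned_all (X : Set α) : Aligned X {A | A ⊆ X} where
  sub := fun _ h => h
  empty := empty_subset _
  whole := Subset.rfl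
  inter := by
    intro F hF ⟨A, hA⟩
    exact (sInter_subset_of_mem hA).trans (hF hA)
  chain := fun F hF _ _ => sUnion_subset fun A hA => hF hA

theorem occurs_top_small {σ : ℕ} (hσ : 1 ≤ σ) {m₁ j₂ : ℕ∞} (h1 : 1 ≤ m₁) (hm : m₁ ≤ σ) :
    Occurs σ m₁ (j₂ + σ) ⊤ := by
  have h₁ : Aligned (pts 4 m₁) {A | A ⊆ pts 4 m₁} := aligned_all _
  have h₂ : Aligned (univ : Set (Fin 5 × ℕ)) (fam univ (pts 1 j₂) (4, 0)) :=
    aligned_fam (mem_univ _)
  have hc : (pts 4 m₁).encard ≤ σ := by rw [encard_pts]; exact hm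
  have hmem : ((4, 0) : Fin 5 × ℕ) ∈ pts 4 m₁ := ⟨rfl, by
    simp only [Nat.cast_zero]
    exact lt_of_lt_of_le zero_lt_one h1⟩
  refine ⟨Fin 5 × ℕ, pts 4 m₁, univ, _, _, h₁, h₂, ?_, ?_, ?_⟩
  · rw [helly_small h₁ hc, encard_pts]
  · rw [helly_fam (mem_univ _) (not_mem_pts (by decide) _ _) (subset_univ _) hσ
      (filler (by decide) (subset_univ _) σ), encard_pts]
  · apply helly_eq
    · intro S _ _
      exact le_top
    · refine ⟨univ, subset_union_right, ?_, ?_⟩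
      · ext x
        simp only [mem_empty_iff_false, iff_false]
        intro hx
        rw [mem_core_sum h₁ h₂ subset_union_right] at hx
        obtain ⟨-, hx1, hx2⟩ := hx
        have h2 := hx2 (mem_univ _)
        rw [core_fam (mem_univ _) (not_mem_pts (by decide) _ _) hσ (subset_univ _)] at h2
        have h3 := hx1 (by rw [h2.1]; exact hmem)
        rw [core_small h₁ ((encard_le_encard inter_subset_right).trans hc)] at h3
        exact h3
      · rw [← encard_pts 2 ⊤]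
        exact encard_le_encard (subset_univ _)

theorem occurs_small {σ : ℕ} (hσ : 1 ≤ σ) {m₁ j₂ : ℕ∞} (hm : m₁ ≤ σ) :
    Occurs σ m₁ (j₂ + σ) (j₂ + σ) := by
  have h₁ : Aligned (pts 0 m₁) {A | A ⊆ pts 0 m₁} := aligned_all _
  have hc : (pts 0 m₁).encard ≤ σ := by rw [encard_pts]; exact hm
  refine ⟨Fin 5 × ℕ, pts 0 m₁, univ, _, fam univ (pts 1 j₂) (4, 0), h₁,
    aligned_fam (mem_univ _), ?_, ?_, ?_⟩
  · rw [helly_small h₁ hc, encard_pts]
  · rw [helly_fam (mem_univ _) (not_mem_pts (by decide) _ _) (subset_univ _) hσ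
      (filler (by decide) (subset_univ _) σ), encard_pts]
  · rw [helly_sum_one h₁ (mem_univ _) (not_mem_pts (by decide) _ _)
      (not_mem_pts (by decide) _ _)
      (subset_univ _) (subset_univ _) hσ (filler (by decide) (subset_univ _) σ), encard_pts]

theorem occurs_both {σ : ℕ} {m₁ m₂ : ℕ∞} (hm1 : m₁ ≤ σ) (hm2 : m₂ ≤ σ) :
    Occurs σ m₁ m₂ (max m₁ m₂) ∧ Occurs σ m₁ m₂ (m₁ + m₂) := by
  have hc : ∀ (k : Fin 5) (m : ℕ∞), m ≤ σ → (pts k m).encard ≤ σ := by
    intro k m hm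
    rw [encard_pts]; exact hm
  constructor
  · refine ⟨Fin 5 × ℕ, pts 0 m₁, pts 0 m₂, _, _, aligned_all _, aligned_all _, ?_, ?_, ?_⟩
    · rw [helly_small (aligned_all _) (hc _ _ hm1), encard_pts]
    · rw [helly_small (aligned_all _) (hc _ _ hm2), encard_pts]
    · rw [helly_sum_both (aligned_all _) (aligned_all _) (hc _ _ hm1) (hc _ _ hm2)]
      have : pts 0 m₁ ∪ pts 0 m₂ = pts 0 (max m₁ m₂) := by
        ext x
        simp only [pts, mem_union, mem_ofPred_eq, lt_max_iff]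
        tauto
      rw [this, encard_pts]
  · refine ⟨Fin 5 × ℕ, pts 0 m₁, pts 1 m₂, _, _, aligned_all _, aligned_all _, ?_, ?_, ?_⟩
    · rw [helly_small (aligned_all _) (hc _ _ hm1), encard_pts]
    · rw [helly_small (aligned_all _) (hc _ _ hm2), encard_pts]
    · rw [helly_sum_both (aligned_all _) (aligned_all _) (hc _ _ hm1) (hc _ _ hm2)]
      rw [encard_union_eq, encard_pts, encard_pts]
      rw [Set.disjoint_left]
      exact fun y hy hyQ => absurd (hy.1.symm.trans hyQ.1) (by decide)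

theorem exists_sub {σ : ℕ} {m : ℕ∞} (h : (σ : ℕ∞) ≤ m) : ∃ j, m = j + σ := by
  obtain ⟨j, rfl⟩ := exists_add_of_le h
  exact ⟨j, add_comm _ _⟩

theorem le_of_two {σ : ℕ} {j : ℕ∞} (h : (σ : ℕ∞) + σ ≤ j + σ) : (σ : ℕ∞) ≤ j := by
  induction j using ENat.recTopCoe with
  | top => exact le_top
  | coe j =>
    have h2 : ((σ + σ : ℕ) : ℕ∞) ≤ ((j + σ : ℕ) : ℕ∞) := by exact_mod_cast h
    have h3 : σ + σ ≤ j + σ := by exact_mod_cast h2
    have h4 : σ ≤ j := by omega
    exact_mod_cast h4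

/-- **The `σ`-Helly number `h` of the aligned sum of two overlapping aligned spaces** with
`σ`-Helly numbers `h₁`, `h₂`, for `σ ≥ 1`: the bounds, and the triples which occur. -/
theorem result (σ : ℕ) (hσ : 1 ≤ σ) :
    (∀ (α : Type u) (X₁ X₂ : Set α) (C₁ C₂ : Set (Set α)), Aligned X₁ C₁ → Aligned X₂ C₂ →
      ∀ h₁ h₂ h : ℕ∞, helly X₁ C₁ σ = h₁ → helly X₂ C₂ σ = h₂ →
      helly (X₁ ∪ X₂) (alignedSum X₁ C₁ X₂ C₂) σ = h →
        min (min h₁ h₂) (σ + 1) ≤ h ∧
        (h₁ < σ ∨ h₂ < σ → max h₁ h₂ ≤ h) ∧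
        (h₁ < σ → h₂ < σ → h ≤ h₁ + h₂) ∧
        (h₁ = 0 → h = h₂) ∧ (h₂ = 0 → h = h₁)) ∧
    ∀ m₁ m₂ : ℕ∞,
      (1 ≤ m₁ → 1 ≤ m₂ → (σ ≤ m₁ ∨ σ ≤ m₂) → Occurs σ m₁ m₂ ⊤) ∧
      (σ ≤ m₁ → σ ≤ m₂ → Occurs σ m₁ m₂ (min (min m₁ m₂) (2 * σ))) ∧
      (m₁ < σ ∨ m₂ < σ → Occurs σ m₁ m₂ (max m₁ m₂)) ∧
      (m₁ < σ → m₂ < σ → Occurs σ m₁ m₂ (m₁ + m₂)) := by
  refine ⟨?_, ?_⟩
  · rintro α X₁ X₂ C₁ C₂ h₁ h₂ _ _ _ rfl rfl rfl
    refine ⟨lower h₁ h₂ hσ, ?_, ?_, ?_, ?_⟩
    · rintro (h | h)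
      · exact lower_small h₁ h₂ (encard_lt_of_helly_lt h₁ h).le
      · have := lower_small h₂ h₁ (encard_lt_of_helly_lt h₂ h).le
        rw [max_comm, union_comm X₁, alignedSum_comm X₁]
        exact this
    · intro hl1 hl2
      have e1 := (encard_lt_of_helly_lt h₁ hl1).le
      have e2 := (encard_lt_of_helly_lt h₂ hl2).le
      rw [helly_sum_both h₁ h₂ e1 e2, helly_small h₁ e1, helly_small h₂ e2]
      exact encard_union_le _ _
    · intro h0
      have := eq_empty_of_helly h₁ hσ h0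
      subst this
      rw [sum_empty h₁, empty_union]
    · intro h0
      have := eq_empty_of_helly h₂ hσ h0
      subst this
      rw [alignedSum_comm, sum_empty h₂, union_empty]
  · intro m₁ m₂
    refine ⟨?_, ?_, ?_, ?_⟩
    · intro h1 h2 h
      rcases le_or_gt (σ : ℕ∞) m₁ with h3 | h3
      · rcases le_or_gt (σ : ℕ∞) m₂ with h4 | h4
        · obtain ⟨j₁, rfl⟩ := exists_sub h3
          obtain ⟨j₂, rfl⟩ := exists_sub h4
          obtain ⟨X₁, X₂, C₁, C₂, hh⟩ := unbounded σ j₁ j₂ hσ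
          exact ⟨_, X₁, X₂, C₁, C₂, hh⟩
        · obtain ⟨j₁, rfl⟩ := exists_sub h3
          exact (occurs_top_small hσ h2 h4.le).symm
      · have h4 : (σ : ℕ∞) ≤ m₂ := h.resolve_left (not_le.2 h3)
        obtain ⟨j₂, rfl⟩ := exists_sub h4
        exact occurs_top_small hσ h1 h3.le
    · intro h1 h2
      obtain ⟨j₁, rfl⟩ := exists_sub h1
      obtain ⟨j₂, rfl⟩ := exists_sub h2
      rw [two_mul]
      rcases le_total (min (j₁ + (σ : ℕ∞)) (j₂ + σ)) ((σ : ℕ∞) + σ) with h3 | h3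
      · rw [min_eq_left h3]
        rcases le_total (j₁ + (σ : ℕ∞)) (j₂ + σ) with h4 | h4
        · rw [min_eq_left h4]
          obtain ⟨X₁, X₂, C₁, C₂, hh⟩ := small_one σ j₂ j₁ hσ
          exact Occurs.symm ⟨_, X₁, X₂, C₁, C₂, hh⟩
        · rw [min_eq_right h4]
          obtain ⟨X₁, X₂, C₁, C₂, hh⟩ := small_one σ j₁ j₂ hσ
          exact ⟨_, X₁, X₂, C₁, C₂, hh⟩
      · rw [min_eq_right h3]
        obtain ⟨X₁, X₂, C₁, C₂, hh⟩ := small_two σ j₁ j₂ hσ
          (le_of_two (h3.trans (min_le_left _ _))) (le_of_two (h3.trans (min_le_right _ _)))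
        exact ⟨_, X₁, X₂, C₁, C₂, hh⟩
    · intro h
      rcases le_or_gt (σ : ℕ∞) m₁ with h3 | h3
      · have h4 : m₂ < σ := h.resolve_left (not_lt.2 h3)
        rw [max_eq_left (h4.le.trans h3)]
        obtain ⟨j₁, rfl⟩ := exists_sub h3
        exact (occurs_small hσ h4.le).symm
      · rcases le_or_gt (σ : ℕ∞) m₂ with h4 | h4
        · rw [max_eq_right (h3.le.trans h4)]
          obtain ⟨j₂, rfl⟩ := exists_sub h4
          exact occurs_small hσ h3.le
        · exact (occurs_both h3.le h4.le).1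
    · intro h1 h2
      exact (occurs_both h1.le h2.le).2

end Pool.Agent.Results.MP_65fb70_co.OverlappingSums
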